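import Pool.Agent.Helper43.GD.St

/-! Project GD (MP_b3ce06_al), module SE. -/

set_option autoImplicit false

namespace Pool.Agent.Helper67.GD

open Pool.Agent.Helper43.GD

/-- Two sets of generators which commute generate commuting subgroups. -/
theorem closure_comm {A : Type} [Group A] {S T : Set A} (h : ∀ s ∈ S, ∀ t ∈ T, s * t = t * s) :
    ∀ g ∈ Subgroup.closure S, ∀ k ∈ Subgroup.closure T, g * k = k * g := by
  intro g hg k hk
  have h1 : ∀ s ∈ S, ∀ k ∈ Subgroup.closure T, s * k = k * s := by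
    intro s hs k hk
    have hle : Subgroup.closure T ≤ Subgroup.centralizer {s} := by
      rw [Subgroup.closure_le]
      intro t ht
      rw [SetLike.mem_coe, Subgroup.mem_centralizer_iff]
      intro y hy
      rw [Set.mem_singleton_iff.1 hy]
      exact h s hs t ht
    exact (Subgroup.mem_centralizer_iff.1 (hle hk)) s rfl
  have hle : Subgroup.closure S ≤ Subgroup.centralizer {k} := by
    rw [Subgroup.closure_le]
    intro s hs
    rw [SetLike.mem_coe, Subgroup.mem_centralizer_iff]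
    intro y hy
    rw [Set.mem_singleton_iff.1 hy]
    exact (h1 s hs k hk).symm
  exact ((Subgroup.mem_centralizer_iff.1 (hle hg)) k rfl).symm

theorem hSE (hSC : StSC) (hSD : StSD) : StSE := by
  intro L A _ _ Q M x hR hx IH ι hι hι2 hι1 hιm
  obtain ⟨t, ht⟩ := hR.two
  obtain ⟨ε, h2ε⟩ : ∃ ε : L, 2 * ε = 1 + ι := by
    refine ⟨((t⁻¹ : Lˣ) : L) * (1 + ι), ?_⟩
    rw [← ht, Units.mul_inv_cancel_left]
  have can : ∀ a b : L, 2 * a = 2 * b → a = b := by
    intro a b h
    rw [← ht] at h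
    exact (Units.mul_right_inj t).1 h
  have hε2 : ε ^ 2 = ε := by
    apply can
    apply can
    linear_combination (2 * ε + 1 + (ι : L) - 2) * h2ε + hι2
  have hε1 : ε ≠ 1 := by
    intro h
    apply hι1
    apply Units.ext
    rw [Units.val_one]
    rw [h] at h2ε
    linear_combination -h2ε
  have hε0 : ε ≠ 0 := by
    intro h
    apply hιm
    apply Units.ext
    rw [Units.val_neg, Units.val_one]
    rw [h] at h2ε
    linear_combination -h2ε
  have hnι : -ι ∈ Q.U := by
    have h := Q.U.mul_mem Q.neg hι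
    rwa [neg_one_mul] at h
  have c1 : ∀ a b : L, Q.E (ε * a) * Q.F ((1 - ε) * b) = Q.F ((1 - ε) * b) * Q.E (ε * a) :=
    hSC L A Q M x hR hx ι ε hι hι2 h2ε
  have c2 : ∀ a b : L, Q.E ((1 - ε) * a) * Q.F ((1 - (1 - ε)) * b) =
      Q.F ((1 - (1 - ε)) * b) * Q.E ((1 - ε) * a) :=
    hSC L A Q M x hR hx (-ι) (1 - ε) hnι
      (by rw [Units.val_neg]; linear_combination hι2)
      (by rw [Units.val_neg]; linear_combination -h2ε)
  have e1 : (1 : L) - (1 - ε) = ε := by ring
  have c2' : ∀ a b : L, Q.E ((1 - ε) * a) * Q.F (ε * b) = Q.F (ε * b) * Q.E ((1 - ε) * a) := by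
    intro a b
    have h := c2 a b
    rwa [e1] at h
  have c1' : ∀ a b : L, Q.E ((1 - (1 - ε)) * a) * Q.F ((1 - ε) * b) =
      Q.F ((1 - ε) * b) * Q.E ((1 - (1 - ε)) * a) := by
    intro a b
    rw [e1]
    exact c1 a b
  have w1 : Q.Weyl 1 := Q.weyl_one
  have wx : Q.Weyl x := (Q.weyl x).1 hx
  have f1 := hSD L A Q.toSys M x hR w1 wx ε hε2 hε1 IH c1 c2'
  have f2 := hSD L A Q.toSys M x hR w1 wx (1 - ε) (by linear_combination hε2)
    (by
      intro h
      apply hε0
      linear_combination -h) IH c2 c1'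
  have hc := closure_comm (A := A)
    (S := Set.range (fun a => Q.E (ε * a)) ∪ Set.range (fun a => Q.F (ε * a)))
    (T := Set.range (fun a => Q.E ((1 - ε) * a)) ∪ Set.range (fun a => Q.F ((1 - ε) * a)))
    (by
      rintro s (⟨a, rfl⟩ | ⟨a, rfl⟩) u (⟨b, rfl⟩ | ⟨b, rfl⟩)
      · exact Q.E_comm _ _
      · exact c1 a b
      · exact (c2' b a).symm
      · exact Q.F_comm _ _)
  set G1 := Subgroup.closure
    (Set.range (fun a => Q.E (ε * a)) ∪ Set.range (fun a => Q.F (ε * a))) with hG1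
  set G2 := Subgroup.closure
    (Set.range (fun a => Q.E ((1 - ε) * a)) ∪ Set.range (fun a => Q.F ((1 - ε) * a))) with hG2
  let φ : G1 × G2 →* A := MonoidHom.noncommCoprod G1.subtype G2.subtype
    (fun g k => hc g.1 g.2 k.1 k.2)
  have hφ : ∀ g ∈ G1, ∀ k ∈ G2, g * k ∈ φ.range := by
    intro g hg k hk
    exact ⟨(⟨g, hg⟩, ⟨k, hk⟩), rfl⟩
  have hle : Q.gp ≤ φ.range := by
    unfold Sys.gp
    rw [Subgroup.closure_le]
    rintro s (⟨a, rfl⟩ | ⟨a, rfl⟩)
    · have h : Q.E a = Q.E (ε * a) * Q.E ((1 - ε) * a) := by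
        rw [← Q.Eadd]
        congr 1
        ring
      rw [SetLike.mem_coe, h]
      exact hφ _ (Subgroup.subset_closure (Or.inl ⟨a, rfl⟩)) _
        (Subgroup.subset_closure (Or.inl ⟨a, rfl⟩))
    · have h : Q.F a = Q.F (ε * a) * Q.F ((1 - ε) * a) := by
        rw [← Q.Fadd]
        congr 1
        ring
      rw [SetLike.mem_coe, h]
      exact hφ _ (Subgroup.subset_closure (Or.inr ⟨a, rfl⟩)) _
        (Subgroup.subset_closure (Or.inr ⟨a, rfl⟩))
  have : Finite G1 := f1
  have : Finite G2 := f2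
  have : Finite φ.range := Finite.of_surjective φ.rangeRestrict φ.rangeRestrict_surjective
  exact Finite.of_injective (Subgroup.inclusion hle) (Subgroup.inclusion_injective hle)

end Pool.Agent.Helper67.GD
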